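import Mathlib

set_option autoImplicit false
set_option maxHeartbeats 1000000

namespace Pool.Agent.Results.MP_ae5379_an.ExtremeAnnihilated

open Filter Topology

/-- `x` is an extreme point of the closed unit ball of `E` (no nonzero `y` has both `x + y` and
`x - y` in the ball). -/
def ExtremeInBall {E : Type} [NormedAddCommGroup E] (x : E) : Prop :=
  ‖x‖ ≤ 1 ∧ ∀ y : E, ‖x + y‖ ≤ 1 → ‖x - y‖ ≤ 1 → y = 0

/-- Numerical index one: the numerical radius of each bounded operator is its norm. -/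
def NumericalIndexOne (𝕜 X : Type) [RCLike 𝕜] [NormedAddCommGroup X] [NormedSpace 𝕜 X] : Prop :=
  ∀ T : X →L[𝕜] X, ∀ ε : ℝ, 0 < ε →
    ∃ (x : X) (f : X →L[𝕜] 𝕜), ‖x‖ = 1 ∧ ‖f‖ = 1 ∧ f x = 1 ∧ ‖T‖ - ε < ‖f (T x)‖

section abstract
variable {𝕜 : Type} [RCLike 𝕜] {X : Type} [NormedAddCommGroup X] [NormedSpace 𝕜 X]

/-- Each `x` of norm less than one is nearly a convex combination of two elements of the ball at
which `g` is unimodular. -/
def Rich (g : X →L[𝕜] 𝕜) : Prop :=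
  ∀ x : X, ‖x‖ < 1 → ∀ η : ℝ, 0 < η → ∃ (y₁ y₂ : X) (μ : ℝ), ‖y₁‖ ≤ 1 ∧ ‖y₂‖ ≤ 1 ∧
    ‖g y₁‖ = 1 ∧ ‖g y₂‖ = 1 ∧ 0 ≤ μ ∧ μ ≤ 1 ∧
    ‖x - ((μ : 𝕜) • y₁ + ((1 - μ : ℝ) : 𝕜) • y₂)‖ ≤ η

theorem index_one (G : Set (X →L[𝕜] 𝕜)) (hG : ∀ g ∈ G, ‖g‖ ≤ 1)
    (hnorm : ∀ x : X, ∀ ε : ℝ, 0 < ε → ∃ g ∈ G, ‖x‖ - ε < ‖g x‖)
    (hrich : ∀ g ∈ G, Rich g) : NumericalIndexOne 𝕜 X := by
  intro T ε hε
  obtain ⟨x0, hx0, hTx0⟩ := T.exists_lt_apply_of_lt_opNorm (r := ‖T‖ - ε / 4) (by linarith)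
  obtain ⟨g, hgG, hg⟩ := hnorm (T x0) (ε / 4) (by linarith)
  have hT0 : 0 < ‖T‖ + 1 := by positivity
  obtain ⟨y₁, y₂, μ, hy₁, hy₂, hg₁, hg₂, hμ0, hμ1, hη⟩ := hrich g hgG x0 hx0
    (ε / (4 * (‖T‖ + 1))) (by positivity)
  set z : X := (μ : 𝕜) • y₁ + ((1 - μ : ℝ) : 𝕜) • y₂ with hz
  have h1 : ‖g (T x0)‖ ≤ ‖g (T z)‖ + ε / 4 := by
    have e1 : g (T x0) = g (T z) + g (T (x0 - z)) := by
      rw [map_sub, map_sub]; ring
    rw [e1]
    refine (norm_add_le _ _).trans ?_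
    have e2 : ‖g (T (x0 - z))‖ ≤ 1 * (‖T‖ * ‖x0 - z‖) :=
      (g.le_opNorm _).trans (mul_le_mul (hG g hgG) (T.le_opNorm _) (norm_nonneg _) zero_le_one)
    have e3 : ‖T‖ * ‖x0 - z‖ ≤ (‖T‖ + 1) * (ε / (4 * (‖T‖ + 1))) :=
      mul_le_mul (by linarith) hη (norm_nonneg _) hT0.le
    have e4 : (‖T‖ + 1) * (ε / (4 * (‖T‖ + 1))) = ε / 4 := by field_simp
    linarith
  have h2 : ‖g (T z)‖ ≤ μ * ‖g (T y₁)‖ + (1 - μ) * ‖g (T y₂)‖ := by
    have e1 : g (T z) = (μ : 𝕜) * g (T y₁) + ((1 - μ : ℝ) : 𝕜) * g (T y₂) := by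
      rw [hz, map_add, map_add, map_smul, map_smul, map_smul, map_smul, smul_eq_mul, smul_eq_mul]
    rw [e1]
    refine (norm_add_le _ _).trans ?_
    rw [norm_mul, norm_mul, RCLike.norm_ofReal, RCLike.norm_ofReal, abs_of_nonneg hμ0,
      abs_of_nonneg (by linarith)]
  have h3 : ‖T‖ - ε < ‖g (T y₁)‖ ∨ ‖T‖ - ε < ‖g (T y₂)‖ := by
    by_contra hcon
    push Not at hcon
    obtain ⟨c1, c2⟩ := hcon
    have : μ * ‖g (T y₁)‖ + (1 - μ) * ‖g (T y₂)‖ ≤ μ * (‖T‖ - ε) + (1 - μ) * (‖T‖ - ε) :=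
      add_le_add (mul_le_mul_of_nonneg_left c1 hμ0)
        (mul_le_mul_of_nonneg_left c2 (by linarith))
    linarith
  have h4 : ∃ y : X, ‖y‖ ≤ 1 ∧ ‖g y‖ = 1 ∧ ‖T‖ - ε < ‖g (T y)‖ := by
    rcases h3 with h3 | h3
    · exact ⟨y₁, hy₁, hg₁, h3⟩
    · exact ⟨y₂, hy₂, hg₂, h3⟩
  obtain ⟨y, hy, hgy, hTy⟩ := h4
  have hgy0 : g y ≠ 0 := by
    intro h
    rw [h, norm_zero] at hgy
    exact zero_ne_one hgy
  have hf1 : ((g y)⁻¹ • g) y = 1 := by
    rw [_root_.smul_apply, smul_eq_mul, inv_mul_cancel₀ hgy0]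
  have hfn : ‖(g y)⁻¹ • g‖ ≤ 1 := by
    rw [norm_smul, norm_inv, hgy, inv_one, one_mul]
    exact hG g hgG
  have h5 : 1 ≤ ‖(g y)⁻¹ • g‖ * ‖y‖ := by
    have := ((g y)⁻¹ • g).le_opNorm y
    rwa [hf1, norm_one] at this
  refine ⟨y, (g y)⁻¹ • g, ?_, ?_, hf1, ?_⟩
  · nlinarith [norm_nonneg y, norm_nonneg ((g y)⁻¹ • g)]
  · nlinarith [norm_nonneg y, norm_nonneg ((g y)⁻¹ • g)]
  · rw [_root_.smul_apply, norm_smul, norm_inv, hgy, inv_one, one_mul]
    exact hTy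

theorem eq_zero_of_unimodular {w z : 𝕜} (hw : ‖w‖ = 1) (h1 : ‖w + z‖ ≤ 1) (h2 : ‖w - z‖ ≤ 1) :
    z = 0 := by
  have h3 := parallelogram_law_with_norm 𝕜 w z
  have h4 : ‖w + z‖ * ‖w + z‖ ≤ 1 := by nlinarith [norm_nonneg (w + z)]
  have h5 : ‖w - z‖ * ‖w - z‖ ≤ 1 := by nlinarith [norm_nonneg (w - z)]
  rw [hw] at h3
  have h6 : ‖z‖ * ‖z‖ ≤ 0 := by linarith
  have h7 : ‖z‖ = 0 := by nlinarith [norm_nonneg z]
  exact norm_eq_zero.1 h7

theorem extreme_of_rich {g : X →L[𝕜] 𝕜} (hg1 : ‖g‖ ≤ 1) (hg : Rich g) : ExtremeInBall g := by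
  refine ⟨hg1, fun k hk1 hk2 => ?_⟩
  have hsmall : ∀ x : X, ‖x‖ < 1 → k x = 0 := by
    intro x hx
    have hb : ∀ η : ℝ, 0 < η → ‖k x‖ ≤ ‖k‖ * η := by
      intro η hη
      obtain ⟨y₁, y₂, μ, hy₁, hy₂, hg₁, hg₂, -, -, hh⟩ := hg x hx η hη
      have key : ∀ y : X, ‖y‖ ≤ 1 → ‖g y‖ = 1 → k y = 0 := by
        intro y hy hgy
        refine eq_zero_of_unimodular hgy ?_ ?_
        · have := (g + k).le_opNorm y
          rw [_root_.add_apply] at this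
          nlinarith [norm_nonneg (g + k), norm_nonneg y]
        · have := (g - k).le_opNorm y
          rw [_root_.sub_apply] at this
          nlinarith [norm_nonneg (g - k), norm_nonneg y]
      have e1 : k x = k (x - ((μ : 𝕜) • y₁ + ((1 - μ : ℝ) : 𝕜) • y₂)) := by
        rw [map_sub, map_add, map_smul, map_smul, key y₁ hy₁ hg₁, key y₂ hy₂ hg₂]
        simp
      rw [e1]
      exact (k.le_opNorm _).trans (mul_le_mul_of_nonneg_left hh (norm_nonneg _))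
    have : ‖k x‖ ≤ 0 := by
      refine le_of_forall_pos_le_add fun δ hδ => ?_
      have := hb (δ / (‖k‖ + 1)) (by positivity)
      have h2 : ‖k‖ * (δ / (‖k‖ + 1)) ≤ δ := by
        rw [mul_div_assoc', div_le_iff₀ (by positivity)]
        nlinarith [norm_nonneg k]
      linarith
    exact norm_le_zero_iff.1 this
  ext x
  have h1 : ‖(((‖x‖ + 1)⁻¹ : ℝ) : 𝕜) • x‖ < 1 := by
    rw [norm_smul, RCLike.norm_ofReal, abs_of_nonneg (by positivity), inv_mul_lt_iff₀ (by positivity)]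
    linarith
  have h2 := hsmall _ h1
  rw [map_smul, smul_eq_mul, mul_eq_zero] at h2
  rcases h2 with h2 | h2
  · exfalso
    have : ((‖x‖ + 1)⁻¹ : ℝ) = 0 := by exact_mod_cast h2
    have h3 : (0 : ℝ) < (‖x‖ + 1)⁻¹ := by positivity
    linarith
  · exact h2

end abstract

section space
variable (𝕜 : Type) [RCLike 𝕜]

/-- The weights `1 / (n + 2)`. -/
noncomputable def c (n : ℕ) : ℝ := 1 / ((n : ℝ) + 2)

theorem c_pos (n : ℕ) : 0 < c n := by
  unfold c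
  positivity

theorem c_le (n : ℕ) : c n ≤ 1 / 2 := by
  unfold c
  have : (0 : ℝ) ≤ n := Nat.cast_nonneg n
  rw [div_le_div_iff₀ (by positivity) (by norm_num)]
  linarith

theorem c_tendsto : Tendsto c atTop (𝓝 0) := by
  unfold c
  have h : Tendsto (fun n : ℕ => ((n : ℝ) + 2)) atTop atTop :=
    tendsto_atTop_add_const_right _ _ tendsto_natCast_atTop_atTop
  simpa using h.const_div_atTop 1

/-- A dense sequence in `[0,1]`. -/
noncomputable def b : ℕ → unitInterval := TopologicalSpace.denseSeq unitInterval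

theorem b_dense : DenseRange b := TopologicalSpace.denseRange_denseSeq unitInterval

/-- `C(ωN × ωN) ⊕ C[0,1]` with the maximum norm, `ωN` the one-point compactification of `ℕ`. -/
abbrev Amb : Type := C(OnePoint ℕ × OnePoint ℕ, 𝕜) × C(unitInterval, 𝕜)

/-- The pairs `(u, v)` with `u (n, ∞) - u (∞, ∞) = c n * v (b n)` for each `n`. -/
noncomputable def Xs : Submodule 𝕜 (Amb 𝕜) where
  carrier := {p | ∀ n : ℕ, p.1 ((n : OnePoint ℕ), OnePoint.infty)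
    - p.1 (OnePoint.infty, OnePoint.infty) = (c n : 𝕜) * p.2 (b n)}
  add_mem' := by
    intro p q hp hq n
    have h1 := hp n
    have h2 := hq n
    simp only [Prod.fst_add, Prod.snd_add, ContinuousMap.add_apply]
    rw [mul_add, ← h1, ← h2]
    ring
  zero_mem' := by
    intro n
    simp
  smul_mem' := by
    intro a p hp n
    have h1 := hp n
    simp only [Prod.smul_fst, Prod.smul_snd, ContinuousMap.smul_apply, smul_eq_mul]
    rw [mul_left_comm, ← h1]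
    ring

theorem Xs_closed : IsClosed (Xs 𝕜 : Set (Amb 𝕜)) := by
  have : (Xs 𝕜 : Set (Amb 𝕜)) = ⋂ n : ℕ, {p : Amb 𝕜 | p.1 ((n : OnePoint ℕ), OnePoint.infty)
    - p.1 (OnePoint.infty, OnePoint.infty) = (c n : 𝕜) * p.2 (b n)} := by
    ext p
    simp only [Set.mem_iInter]
    rfl
  rw [this]
  refine isClosed_iInter fun n => isClosed_eq ?_ ?_
  · exact ((continuous_eval_const _).comp continuous_fst).sub
      ((continuous_eval_const _).comp continuous_fst)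
  · exact continuous_const.mul ((continuous_eval_const _).comp continuous_snd)

/-- The space. -/
def XX : Type := Xs 𝕜

noncomputable instance : NormedAddCommGroup (XX 𝕜) := inferInstanceAs (NormedAddCommGroup (Xs 𝕜))
noncomputable instance : NormedSpace 𝕜 (XX 𝕜) := inferInstanceAs (NormedSpace 𝕜 (Xs 𝕜))
instance : CompleteSpace (XX 𝕜) := (Xs_closed 𝕜).completeSpace_coe

variable {𝕜}

theorem norm_le_iff (x : XX 𝕜) {M : ℝ} (hM : 0 ≤ M) :
    ‖x‖ ≤ M ↔ (∀ a, ‖x.1.1 a‖ ≤ M) ∧ ∀ t, ‖x.1.2 t‖ ≤ M := by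
  rw [← ContinuousMap.norm_le _ hM, ← ContinuousMap.norm_le _ hM, ← max_le_iff]
  exact Iff.rfl

theorem evA_le (x : XX 𝕜) (a : OnePoint ℕ × OnePoint ℕ) : ‖x.1.1 a‖ ≤ ‖x‖ :=
  ((norm_le_iff x (norm_nonneg x)).1 le_rfl).1 a

theorem evB_le (x : XX 𝕜) (t : unitInterval) : ‖x.1.2 t‖ ≤ ‖x‖ :=
  ((norm_le_iff x (norm_nonneg x)).1 le_rfl).2 t

/-- Evaluation of the first component at `a`. -/
noncomputable def evA (a : OnePoint ℕ × OnePoint ℕ) : XX 𝕜 →L[𝕜] 𝕜 :=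
  (ContinuousMap.evalCLM 𝕜 a).comp ((ContinuousLinearMap.fst 𝕜 _ _).comp (Xs 𝕜).subtypeL)

/-- Evaluation of the second component at `t`. -/
noncomputable def evB (t : unitInterval) : XX 𝕜 →L[𝕜] 𝕜 :=
  (ContinuousMap.evalCLM 𝕜 t).comp ((ContinuousLinearMap.snd 𝕜 _ _).comp (Xs 𝕜).subtypeL)

theorem evA_apply (a : OnePoint ℕ × OnePoint ℕ) (x : XX 𝕜) : evA a x = x.1.1 a := rfl
theorem evB_apply (t : unitInterval) (x : XX 𝕜) : evB t x = x.1.2 t := rfl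

theorem evA_norm (a : OnePoint ℕ × OnePoint ℕ) : ‖(evA a : XX 𝕜 →L[𝕜] 𝕜)‖ ≤ 1 :=
  ContinuousLinearMap.opNorm_le_bound _ zero_le_one fun x => by
    rw [one_mul]; exact evA_le x a

theorem evB_norm (t : unitInterval) : ‖(evB t : XX 𝕜 →L[𝕜] 𝕜)‖ ≤ 1 :=
  ContinuousLinearMap.opNorm_le_bound _ zero_le_one fun x => by
    rw [one_mul]; exact evB_le x t

theorem exists_phase (z : 𝕜) : ∃ w : 𝕜, ‖w‖ = 1 ∧ (‖z‖ : 𝕜) * w = z := by
  by_cases hz : z = 0
  · exact ⟨1, norm_one, by simp [hz]⟩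
  · have hz' : (‖z‖ : 𝕜) ≠ 0 := by
      simpa using hz
    refine ⟨z / (‖z‖ : 𝕜), ?_, by field_simp⟩
    rw [norm_div, RCLike.norm_ofReal, abs_norm, div_self (by simpa using hz)]

/-- Indicator of the point `n` of `ωN`. -/
noncomputable def ind (n : ℕ) : C(OnePoint ℕ, 𝕜) :=
  OnePoint.continuousMapMkNat (fun m => if m = n then 1 else 0) 0 (by
    refine tendsto_const_nhds.congr' ?_
    filter_upwards [eventually_gt_atTop n] with m hm
    rw [if_neg (by omega)])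

theorem ind_coe (n m : ℕ) : (ind n : C(OnePoint ℕ, 𝕜)) (m : OnePoint ℕ) = if m = n then 1 else 0 :=
  rfl

theorem ind_infty (n : ℕ) : (ind n : C(OnePoint ℕ, 𝕜)) OnePoint.infty = 0 := rfl

theorem ind_cases (n : ℕ) (m : OnePoint ℕ) : (ind n : C(OnePoint ℕ, 𝕜)) m = 0 ∨
    (m = (n : OnePoint ℕ) ∧ (ind n : C(OnePoint ℕ, 𝕜)) m = 1) := by
  induction m using OnePoint.rec with
  | infty => left; exact ind_infty n
  | coe m =>
    rw [ind_coe]
    by_cases h : m = n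
    · right; simp [h]
    · left; simp [h]

/-- The element `(indicator of (n, k), 0)`. -/
noncomputable def pt (n k : ℕ) : XX 𝕜 :=
  ⟨((ind n).comp ContinuousMap.fst * (ind k).comp ContinuousMap.snd, 0), by
    intro m
    simp [ind_infty]⟩

theorem pt_snd (n k : ℕ) : (pt n k : XX 𝕜).1.2 = 0 := rfl

theorem pt_cases (n k : ℕ) (a : OnePoint ℕ × OnePoint ℕ) : (pt n k : XX 𝕜).1.1 a = 0 ∨
    (a = ((n : OnePoint ℕ), (k : OnePoint ℕ)) ∧ (pt n k : XX 𝕜).1.1 a = 1) := by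
  have h : (pt n k : XX 𝕜).1.1 a = (ind n : C(OnePoint ℕ, 𝕜)) a.1 * (ind k : C(OnePoint ℕ, 𝕜)) a.2 :=
    rfl
  rcases ind_cases (𝕜 := 𝕜) n a.1 with h1 | ⟨h1, h1'⟩
  · left; rw [h, h1, zero_mul]
  · rcases ind_cases (𝕜 := 𝕜) k a.2 with h2 | ⟨h2, h2'⟩
    · left; rw [h, h2, mul_zero]
    · right
      exact ⟨Prod.ext h1 h2, by rw [h, h1', h2', mul_one]⟩

theorem pt_self (n k : ℕ) : (pt n k : XX 𝕜).1.1 ((n : OnePoint ℕ), (k : OnePoint ℕ)) = 1 := by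
  have h : (pt n k : XX 𝕜).1.1 ((n : OnePoint ℕ), (k : OnePoint ℕ))
    = (ind n : C(OnePoint ℕ, 𝕜)) n * (ind k : C(OnePoint ℕ, 𝕜)) k := rfl
  rw [h, ind_coe, ind_coe]
  simp

theorem rich_evA (n k : ℕ) :
    Rich (evA ((n : OnePoint ℕ), (k : OnePoint ℕ)) : XX 𝕜 →L[𝕜] 𝕜) := by
  intro x hx η hη
  set a : OnePoint ℕ × OnePoint ℕ := ((n : OnePoint ℕ), (k : OnePoint ℕ)) with ha
  obtain ⟨w, hw, hz⟩ := exists_phase (x.1.1 a)
  have hza : ‖x.1.1 a‖ ≤ 1 := (evA_le x a).trans hx.le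
  have key : ∀ σ : 𝕜, ‖σ‖ = 1 → ‖x + (σ - x.1.1 a) • (pt n k : XX 𝕜)‖ ≤ 1 ∧
      ‖(evA a : XX 𝕜 →L[𝕜] 𝕜) (x + (σ - x.1.1 a) • (pt n k : XX 𝕜))‖ = 1 := by
    intro σ hσ
    have hA : ∀ a', (x + (σ - x.1.1 a) • (pt n k : XX 𝕜)).1.1 a'
        = x.1.1 a' + (σ - x.1.1 a) * (pt n k : XX 𝕜).1.1 a' := fun a' => rfl
    have hB : ∀ t, (x + (σ - x.1.1 a) • (pt n k : XX 𝕜)).1.2 t
        = x.1.2 t + (σ - x.1.1 a) * (pt n k : XX 𝕜).1.2 t := fun t => rfl
    refine ⟨(norm_le_iff _ zero_le_one).2 ⟨fun a' => ?_, fun t => ?_⟩, ?_⟩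
    · rw [hA]
      rcases pt_cases (𝕜 := 𝕜) n k a' with h | ⟨h, h'⟩
      · rw [h, mul_zero, add_zero]
        exact (evA_le x a').trans hx.le
      · rw [h', mul_one, h, add_sub_cancel, hσ]
    · rw [hB, pt_snd, ContinuousMap.zero_apply, mul_zero, add_zero]
      exact (evB_le x t).trans hx.le
    · rw [evA_apply, hA, pt_self, mul_one, add_sub_cancel, hσ]
  refine ⟨_, _, (1 + ‖x.1.1 a‖) / 2, (key w hw).1, (key (-w) (by rw [norm_neg, hw])).1,
    (key w hw).2, (key (-w) (by rw [norm_neg, hw])).2, by positivity, by linarith, ?_⟩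
  have : x - ((((1 + ‖x.1.1 a‖) / 2 : ℝ) : 𝕜) • (x + (w - x.1.1 a) • (pt n k : XX 𝕜)) +
      ((1 - (1 + ‖x.1.1 a‖) / 2 : ℝ) : 𝕜) • (x + (-w - x.1.1 a) • (pt n k : XX 𝕜))) = 0 := by
    have e : x - ((((1 + ‖x.1.1 a‖) / 2 : ℝ) : 𝕜) • (x + (w - x.1.1 a) • (pt n k : XX 𝕜)) +
      ((1 - (1 + ‖x.1.1 a‖) / 2 : ℝ) : 𝕜) • (x + (-w - x.1.1 a) • (pt n k : XX 𝕜)))
      = (x.1.1 a - (‖x.1.1 a‖ : 𝕜) * w) • (pt n k : XX 𝕜) := by
      push_cast
      module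
    rw [e, hz, sub_self, zero_smul]
  rw [this, norm_zero]
  exact hη.le

theorem J_tendsto (ψ : C(unitInterval, 𝕜)) :
    Tendsto (fun n => (c n : 𝕜) * ψ (b n)) atTop (𝓝 0) := by
  rw [tendsto_zero_iff_norm_tendsto_zero]
  have h : Tendsto (fun n => c n * ‖ψ‖) atTop (𝓝 0) := by
    simpa using c_tendsto.mul_const ‖ψ‖
  refine squeeze_zero (fun n => norm_nonneg _) (fun n => ?_) h
  rw [norm_mul, RCLike.norm_ofReal, abs_of_pos (c_pos n)]
  exact mul_le_mul_of_nonneg_left (ψ.norm_coe_le_norm _) (c_pos n).le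

/-- The element `(u, ψ)` with `u (n, k) = c n * ψ (b n)` for `n : ℕ` and `u (∞, k) = 0`. -/
noncomputable def J (ψ : C(unitInterval, 𝕜)) : XX 𝕜 :=
  ⟨((OnePoint.continuousMapMkNat (fun n => (c n : 𝕜) * ψ (b n)) 0 (J_tendsto ψ)).comp
    ContinuousMap.fst, ψ), by
    intro m
    show (c m : 𝕜) * ψ (b m) - 0 = (c m : 𝕜) * ψ (b m)
    rw [sub_zero]⟩

theorem J_snd (ψ : C(unitInterval, 𝕜)) : (J ψ).1.2 = ψ := rfl

theorem J_cases (ψ : C(unitInterval, 𝕜)) (a : OnePoint ℕ × OnePoint ℕ) :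
    (J ψ).1.1 a = 0 ∨ ∃ n, (J ψ).1.1 a = (c n : 𝕜) * ψ (b n) := by
  obtain ⟨a1, a2⟩ := a
  induction a1 using OnePoint.rec with
  | infty => left; rfl
  | coe n => right; exact ⟨n, rfl⟩

/-- A tent function of height one at `t`, zero at distance `≥ δ` from `t`. -/
noncomputable def tent (t : unitInterval) (δ : ℝ) : C(unitInterval, ℝ) :=
  ⟨fun s => max 0 (1 - |(s : ℝ) - t| / δ), by fun_prop⟩

theorem tent_apply (t : unitInterval) (δ : ℝ) (s : unitInterval) :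
    tent t δ s = max 0 (1 - |(s : ℝ) - t| / δ) := rfl

theorem tent_self (t : unitInterval) (δ : ℝ) : tent t δ t = 1 := by
  rw [tent_apply]; simp

theorem tent_nonneg (t : unitInterval) (δ : ℝ) (s : unitInterval) : 0 ≤ tent t δ s :=
  le_max_left _ _

theorem tent_le (t : unitInterval) {δ : ℝ} (hδ : 0 < δ) (s : unitInterval) : tent t δ s ≤ 1 := by
  rw [tent_apply]
  refine max_le zero_le_one ?_
  have : 0 ≤ |(s : ℝ) - t| / δ := by positivity
  linarith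

theorem tent_zero (t : unitInterval) {δ : ℝ} (hδ : 0 < δ) (s : unitInterval)
    (h : δ ≤ |(s : ℝ) - t|) : tent t δ s = 0 := by
  rw [tent_apply]
  refine max_eq_left ?_
  have : 1 ≤ |(s : ℝ) - t| / δ := (one_le_div hδ).2 h
  linarith

/-- The product of the tent with `σ - v`. -/
noncomputable def ten (t : unitInterval) (δ : ℝ) (σ : 𝕜) (v : C(unitInterval, 𝕜)) :
    C(unitInterval, 𝕜) :=
  ⟨fun s => ((tent t δ s : ℝ) : 𝕜) * (σ - v s), by
    have := (tent t δ).continuous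
    have h2 : Continuous fun s => ((tent t δ s : ℝ) : 𝕜) := RCLike.continuous_ofReal.comp this
    fun_prop⟩

theorem ten_apply (t : unitInterval) (δ : ℝ) (σ : 𝕜) (v : C(unitInterval, 𝕜)) (s : unitInterval) :
    ten t δ σ v s = ((tent t δ s : ℝ) : 𝕜) * (σ - v s) := rfl

theorem exists_delta (t : unitInterval) (ht : ∀ n, b n ≠ t) (v : C(unitInterval, 𝕜)) {η : ℝ}
    (hη : 0 < η) : ∃ δ : ℝ, 0 < δ ∧ (∀ s : unitInterval, |(s : ℝ) - t| < δ → ‖v t - v s‖ ≤ η) ∧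
      ∀ n, c n * tent t δ (b n) ≤ η := by
  obtain ⟨δ₁, hδ₁, h1⟩ := Metric.continuousAt_iff.1 (v.continuous.continuousAt (x := t)) η hη
  obtain ⟨N, hN⟩ := (Filter.eventually_atTop.1 (c_tendsto.eventually (gt_mem_nhds hη)))
  have h2 : ∀ N : ℕ, ∃ δ₂ : ℝ, 0 < δ₂ ∧ ∀ n < N, δ₂ ≤ |(b n : ℝ) - t| := by
    intro N
    induction N with
    | zero => exact ⟨1, one_pos, fun n hn => absurd hn (Nat.not_lt_zero n)⟩
    | succ N ih =>
      obtain ⟨δ₂, hδ₂, ih⟩ := ih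
      have hpos : 0 < |(b N : ℝ) - t| := by
        rw [abs_pos, sub_ne_zero]
        exact fun h => ht N (Subtype.ext h)
      refine ⟨min δ₂ |(b N : ℝ) - t|, lt_min hδ₂ hpos, fun n hn => ?_⟩
      rcases Nat.lt_succ_iff_lt_or_eq.1 hn with h | h
      · exact (min_le_left _ _).trans (ih n h)
      · rw [h]; exact min_le_right _ _
  obtain ⟨δ₂, hδ₂, h2⟩ := h2 N
  refine ⟨min δ₁ δ₂, lt_min hδ₁ hδ₂, fun s hs => ?_, fun n => ?_⟩
  · have : dist s t < δ₁ := by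
      rw [Subtype.dist_eq, Real.dist_eq]
      exact hs.trans_le (min_le_left _ _)
    have := (h1 this).le
    rwa [dist_comm, dist_eq_norm] at this
  · have hδ : 0 < min δ₁ δ₂ := lt_min hδ₁ hδ₂
    rcases lt_or_ge n N with h | h
    · rw [tent_zero t hδ (b n) ((min_le_right _ _).trans (h2 n h)), mul_zero]
      exact hη.le
    · have h3 := hN n h
      have h4 := tent_le t hδ (b n)
      have h5 := tent_nonneg t (min δ₁ δ₂) (b n)
      have h6 := c_pos n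
      nlinarith

theorem rich_evB (t : unitInterval) (ht : ∀ n, b n ≠ t) :
    Rich (evB t : XX 𝕜 →L[𝕜] 𝕜) := by
  intro x hx η hη
  obtain ⟨w, hw, hz⟩ := exists_phase (x.1.2 t)
  have hzt : ‖x.1.2 t‖ ≤ 1 := (evB_le x t).trans hx.le
  obtain ⟨δ, hδ, hd1, hd2⟩ := exists_delta t ht x.1.2 (η := min (η / 2) ((1 - ‖x‖) / 2))
    (lt_min (by linarith) (by linarith))
  have hd2' : ∀ n, c n * tent t δ (b n) ≤ η / 2 := fun n => (hd2 n).trans (min_le_left _ _)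
  have hd2'' : ∀ n, c n * tent t δ (b n) ≤ (1 - ‖x‖) / 2 := fun n => (hd2 n).trans (min_le_right _ _)
  have hc0 : ∀ n, 0 ≤ c n * tent t δ (b n) := fun n => mul_nonneg (c_pos n).le (tent_nonneg _ _ _)
  have key : ∀ σ : 𝕜, ‖σ‖ = 1 → ‖x + J (ten t δ σ x.1.2)‖ ≤ 1 ∧
      ‖(evB t : XX 𝕜 →L[𝕜] 𝕜) (x + J (ten t δ σ x.1.2))‖ = 1 := by
    intro σ hσ
    have hA : ∀ a', (x + J (ten t δ σ x.1.2)).1.1 a'
        = x.1.1 a' + (J (ten t δ σ x.1.2)).1.1 a' := fun a' => rfl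
    have hB : ∀ s, (x + J (ten t δ σ x.1.2)).1.2 s
        = x.1.2 s + ((tent t δ s : ℝ) : 𝕜) * (σ - x.1.2 s) := fun s => rfl
    refine ⟨(norm_le_iff _ zero_le_one).2 ⟨fun a' => ?_, fun s => ?_⟩, ?_⟩
    · rw [hA]
      rcases J_cases (ten t δ σ x.1.2) a' with h | ⟨n, h⟩
      · rw [h, add_zero]
        exact (evA_le x a').trans hx.le
      · rw [h, ten_apply]
        refine (norm_add_le _ _).trans ?_
        rw [norm_mul, norm_mul, RCLike.norm_ofReal, RCLike.norm_ofReal, abs_of_pos (c_pos n),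
          abs_of_nonneg (tent_nonneg _ _ _), ← mul_assoc]
        have h1 := evA_le x a'
        have h2 : ‖σ - x.1.2 (b n)‖ ≤ 2 := by
          refine (norm_sub_le _ _).trans ?_
          have := evB_le x (b n)
          rw [hσ]
          linarith
        have h3 := mul_le_mul (hd2'' n) h2 (norm_nonneg _) (by linarith)
        linarith
    · rw [hB]
      have e : x.1.2 s + ((tent t δ s : ℝ) : 𝕜) * (σ - x.1.2 s)
        = ((1 - tent t δ s : ℝ) : 𝕜) * x.1.2 s + ((tent t δ s : ℝ) : 𝕜) * σ := by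
        push_cast; ring
      rw [e]
      refine (norm_add_le _ _).trans ?_
      have h1 := tent_nonneg t δ s
      have h2 := tent_le t hδ s
      rw [norm_mul, norm_mul, RCLike.norm_ofReal, RCLike.norm_ofReal, abs_of_nonneg h1,
        abs_of_nonneg (by linarith), hσ]
      have h3 := evB_le x s
      nlinarith
    · rw [evB_apply, hB, tent_self]
      rw [RCLike.ofReal_one, one_mul, add_sub_cancel, hσ]
  refine ⟨_, _, (1 + ‖x.1.2 t‖) / 2, (key w hw).1, (key (-w) (by rw [norm_neg, hw])).1,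
    (key w hw).2, (key (-w) (by rw [norm_neg, hw])).2, by positivity, by linarith, ?_⟩
  set μ : ℝ := (1 + ‖x.1.2 t‖) / 2 with hμ
  have hμw : ((μ : ℝ) : 𝕜) * w + ((1 - μ : ℝ) : 𝕜) * (-w) = x.1.2 t := by
    rw [← hz, hμ]
    push_cast
    ring
  have hJ : J (ten t δ (x.1.2 t) x.1.2) = ((μ : ℝ) : 𝕜) • J (ten t δ w x.1.2)
      + ((1 - μ : ℝ) : 𝕜) • J (ten t δ (-w) x.1.2) := by
    have hv : ∀ s, ten t δ (x.1.2 t) x.1.2 s = ((μ : ℝ) : 𝕜) * ten t δ w x.1.2 s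
        + ((1 - μ : ℝ) : 𝕜) * ten t δ (-w) x.1.2 s := by
      intro s
      rw [ten_apply, ten_apply, ten_apply, ← hμw]
      push_cast
      ring
    refine Subtype.ext (Prod.ext (ContinuousMap.ext fun a => ?_) (ContinuousMap.ext fun s => hv s))
    obtain ⟨a1, a2⟩ := a
    induction a1 using OnePoint.rec with
    | infty =>
      show (0 : 𝕜) = ((μ : ℝ) : 𝕜) * 0 + ((1 - μ : ℝ) : 𝕜) * 0
      ring
    | coe n =>
      show (c n : 𝕜) * ten t δ (x.1.2 t) x.1.2 (b n)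
        = ((μ : ℝ) : 𝕜) * ((c n : 𝕜) * ten t δ w x.1.2 (b n))
          + ((1 - μ : ℝ) : 𝕜) * ((c n : 𝕜) * ten t δ (-w) x.1.2 (b n))
      rw [hv]
      ring
  have hx' : x - (((μ : ℝ) : 𝕜) • (x + J (ten t δ w x.1.2))
      + ((1 - μ : ℝ) : 𝕜) • (x + J (ten t δ (-w) x.1.2))) = - J (ten t δ (x.1.2 t) x.1.2) := by
    rw [hJ]
    push_cast
    module
  rw [hx', norm_neg]
  refine (norm_le_iff _ hη.le).2 ⟨fun a' => ?_, fun s => ?_⟩
  · rcases J_cases (ten t δ (x.1.2 t) x.1.2) a' with h | ⟨n, h⟩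
    · rw [h, norm_zero]
      exact hη.le
    · rw [h, ten_apply, norm_mul, norm_mul, RCLike.norm_ofReal, RCLike.norm_ofReal,
        abs_of_pos (c_pos n), abs_of_nonneg (tent_nonneg _ _ _), ← mul_assoc]
      have h2 : ‖x.1.2 t - x.1.2 (b n)‖ ≤ 2 := by
        refine (norm_sub_le _ _).trans ?_
        have := evB_le x (b n)
        linarith
      have h3 := mul_le_mul (hd2' n) h2 (norm_nonneg _) (by linarith)
      linarith
  · rw [J_snd, ten_apply, norm_mul, RCLike.norm_ofReal, abs_of_nonneg (tent_nonneg _ _ _)]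
    rcases lt_or_ge |(s : ℝ) - t| δ with h | h
    · have h1 := (hd1 s h).trans (min_le_left _ _)
      have h2 := tent_nonneg t δ s
      have h3 := tent_le t hδ s
      have h4 := norm_nonneg (x.1.2 t - x.1.2 s)
      nlinarith
    · rw [tent_zero t hδ s h, zero_mul]
      exact hη.le

/-- The norming set of functionals. -/
def GG : Set (XX 𝕜 →L[𝕜] 𝕜) :=
  {g | (∃ n k : ℕ, g = evA ((n : OnePoint ℕ), (k : OnePoint ℕ))) ∨ ∃ t, (∀ n, b n ≠ t) ∧ g = evB t}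

theorem compl_dense : Dense {t : unitInterval | ∀ n, b n ≠ t} := by
  have h : {t : unitInterval | ∀ n, b n ≠ t} = ⋂ n : ℕ, {b n}ᶜ := by
    ext t
    simp only [Set.mem_iInter, Set.mem_compl_iff, Set.mem_singleton_iff]
    exact ⟨fun h n hn => h n hn.symm, fun h n hn => h n hn.symm⟩
  rw [h]
  exact dense_iInter_of_isOpen (fun n => isOpen_compl_singleton)
    (fun n => dense_compl_singleton (b n))

theorem nat_dense : DenseRange (fun p : ℕ × ℕ => ((p.1 : OnePoint ℕ), (p.2 : OnePoint ℕ))) :=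
  (OnePoint.denseRange_coe (X := ℕ)).prodMap (OnePoint.denseRange_coe (X := ℕ))

theorem norm_le_of_good (x : XX 𝕜) {M : ℝ} (hM : 0 ≤ M)
    (h1 : ∀ n k : ℕ, ‖x.1.1 ((n : OnePoint ℕ), (k : OnePoint ℕ))‖ ≤ M)
    (h2 : ∀ t, (∀ n, b n ≠ t) → ‖x.1.2 t‖ ≤ M) : ‖x‖ ≤ M := by
  rw [norm_le_iff x hM]
  constructor
  · intro a
    have hc : IsClosed {a | ‖x.1.1 a‖ ≤ M} :=
      isClosed_le (x.1.1.continuous.norm) continuous_const
    have := nat_dense.closure_range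
    have h3 : closure (Set.range (fun p : ℕ × ℕ => ((p.1 : OnePoint ℕ), (p.2 : OnePoint ℕ))))
        ⊆ {a | ‖x.1.1 a‖ ≤ M} := by
      refine closure_minimal ?_ hc
      rintro _ ⟨⟨n, k⟩, rfl⟩
      exact h1 n k
    rw [this] at h3
    exact h3 (Set.mem_univ a)
  · intro t
    have hc : IsClosed {t | ‖x.1.2 t‖ ≤ M} :=
      isClosed_le (x.1.2.continuous.norm) continuous_const
    have h3 : closure {t : unitInterval | ∀ n, b n ≠ t} ⊆ {t | ‖x.1.2 t‖ ≤ M} :=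
      closure_minimal (fun t ht => h2 t ht) hc
    rw [compl_dense.closure_eq] at h3
    exact h3 (Set.mem_univ t)

theorem XX_index_one : NumericalIndexOne 𝕜 (XX 𝕜) := by
  refine index_one GG ?_ ?_ ?_
  · rintro g (⟨n, k, rfl⟩ | ⟨t, -, rfl⟩)
    · exact evA_norm _
    · exact evB_norm _
  · intro x ε hε
    by_contra hcon
    push Not at hcon
    have h3 : ‖x‖ ≤ max (‖x‖ - ε) 0 := by
      refine norm_le_of_good x (le_max_right _ _) (fun n k => ?_) (fun t ht => ?_)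
      · exact (hcon (evA _) (Or.inl ⟨n, k, rfl⟩)).trans (le_max_left _ _)
      · exact (hcon (evB t) (Or.inr ⟨t, ht, rfl⟩)).trans (le_max_left _ _)
    obtain ⟨t, ht⟩ := compl_dense.nonempty
    have h4 := hcon (evB t) (Or.inr ⟨t, ht, rfl⟩)
    have h5 : 0 ≤ ‖x‖ - ε := (norm_nonneg _).trans h4
    rw [max_eq_left h5] at h3
    linarith
  · rintro g (⟨n, k, rfl⟩ | ⟨t, ht, rfl⟩)
    · exact rich_evA n k
    · exact rich_evB t ht

/-- The element `(1, 0)`. -/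
noncomputable def one0 : XX 𝕜 :=
  ⟨(1, 0), by
    intro m
    simp⟩

theorem one0_extreme : ExtremeInBall (one0 : XX 𝕜) := by
  refine ⟨?_, fun y h1 h2 => ?_⟩
  · refine (norm_le_iff _ zero_le_one).2 ⟨fun a => ?_, fun t => ?_⟩
    · show ‖(1 : 𝕜)‖ ≤ 1
      rw [norm_one]
    · show ‖(0 : 𝕜)‖ ≤ 1
      rw [norm_zero]
      exact zero_le_one
  · have hu : ∀ a, y.1.1 a = 0 := by
      intro a
      refine eq_zero_of_unimodular (w := (1 : 𝕜)) norm_one ?_ ?_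
      · exact (evA_le (one0 + y) a).trans h1
      · exact (evA_le (one0 - y) a).trans h2
    have hb : ∀ n, y.1.2 (b n) = 0 := by
      intro n
      have h3 : y.1.1 ((n : OnePoint ℕ), OnePoint.infty)
        - y.1.1 (OnePoint.infty, OnePoint.infty) = (c n : 𝕜) * y.1.2 (b n) := y.2 n
      rw [hu, hu, sub_zero] at h3
      have h4 : (c n : 𝕜) ≠ 0 := by
        have := (c_pos n).ne'
        exact_mod_cast this
      exact (mul_eq_zero.1 h3.symm).resolve_left h4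
    have hv : (y.1.2 : unitInterval → 𝕜) = 0 :=
      b_dense.equalizer y.1.2.continuous continuous_const (funext fun n => hb n)
    refine Subtype.ext (Prod.ext (ContinuousMap.ext fun a => hu a)
      (ContinuousMap.ext fun t => congrFun hv t))

end space

theorem result : ∀ (𝕜 : Type) [RCLike 𝕜],
    ∃ (X : Type) (_ : NormedAddCommGroup X) (_ : NormedSpace 𝕜 X) (_ : CompleteSpace X),
      NumericalIndexOne 𝕜 X ∧
      ∃ (f : X →L[𝕜] 𝕜) (x : X), ExtremeInBall f ∧ ExtremeInBall x ∧ f x = 0 := by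
  intro 𝕜 _
  obtain ⟨t, ht⟩ := compl_dense.nonempty
  exact ⟨XX 𝕜, inferInstance, inferInstance, inferInstance, XX_index_one, evB t, one0,
    extreme_of_rich (evB_norm t) (rich_evB t ht), one0_extreme, rfl⟩

end Pool.Agent.Results.MP_ae5379_an.ExtremeAnnihilated
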